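import Pool.Agent.helper30.QP.SpecK

/-!
# QP (MP_ebc808_nt), row IDX
-/

set_option autoImplicit false

open Polynomial Pool.Agent.helper7.IG

noncomputable section

namespace Pool.Agent.QP

/-- The evaluation of modular functions at `q ^ B`, followed by an automorphism. -/
def IDX_th (hME : ME_stmt) (Φ : Frame) (B : ℕ) (hB : Odd B) (g : Φ.A ≃ₐ[kk] Φ.A) :
    MM →ₐ[kk] Φ.A where
  toFun x := g (Φ.cl (sig B 1 (x : LL)))
  map_one' := by
    have h : ((1 : MM) : LL) = 1 := rfl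
    rw [h, map_one, Φ.cl_one, map_one]
  map_mul' x y := by
    have h : ((x * y : MM) : LL) = (x : LL) * (y : LL) := rfl
    rw [h, map_mul, Φ.cl_mul _ (hME B 1 _ hB x.2) _ (hME B 1 _ hB y.2), map_mul]
  map_zero' := by
    have h : ((0 : MM) : LL) = 0 := rfl
    rw [h, map_zero, Φ.cl_zero, map_zero]
  map_add' x y := by
    have h : ((x + y : MM) : LL) = (x : LL) + (y : LL) := rfl
    rw [h, map_add, Φ.cl_add _ (hME B 1 _ hB x.2) _ (hME B 1 _ hB y.2), map_add]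
  commutes' c := by
    have h : ((algebraMap kk MM c : MM) : LL) = algebraMap kk LL c := rfl
    rw [h, AlgHom.commutes, Φ.cl_alg, AlgEquiv.commutes]

theorem IDX_th_apply (hME : ME_stmt) (Φ : Frame) (B : ℕ) (hB : Odd B) (g : Φ.A ≃ₐ[kk] Φ.A)
    (x : MM) : IDX_th hME Φ B hB g x = g (Φ.cl (sig B 1 (x : LL))) := rfl

theorem IDX_le : IntermediateField.adjoin kk {DDk} ≤ MM := by
  rw [IntermediateField.adjoin_le_iff]
  intro y hy
  rw [Set.mem_singleton_iff] at hy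
  subst hy
  exact DDk_mem

/-- The restriction to `kk(D)`. -/
def IDX_ps (hME : ME_stmt) (Φ : Frame) (B : ℕ) (hB : Odd B) (g : Φ.A ≃ₐ[kk] Φ.A) :
    IntermediateField.adjoin kk {DDk} →ₐ[kk] Φ.A :=
  (IDX_th hME Φ B hB g).comp (IntermediateField.inclusion IDX_le)

theorem IDX_indep (hME : ME_stmt) (Φ : Frame) (B : ℕ) (hB : Odd B) (g : Φ.A ≃ₐ[kk] Φ.A)
    (hg : g (Φ.D (B, 1)) = Φ.D (B, 1)) :
    IDX_ps hME Φ B hB g = IDX_ps hME Φ B hB AlgEquiv.refl := by
  apply IntermediateField.adjoin_algHom_ext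
  intro x hx
  rw [Set.mem_singleton_iff] at hx
  subst hx
  exact hg

theorem IDX_root (hME : ME_stmt) (Φ : Frame) (B : ℕ) (hB : Odd B) (g : Φ.A ≃ₐ[kk] Φ.A)
    (hg : g (Φ.D (B, 1)) = Φ.D (B, 1)) (v : Vx) (hv : Odd v.1)
    (P : Polynomial (IntermediateField.adjoin kk {DDk})) (hP : P ≠ 0)
    (h : aeval (sig v.1 v.2 DDk) P = 0) :
    g (Φ.D (B * v.1, v.2)) ∈
      (P.map (IDX_ps hME Φ B hB AlgEquiv.refl : IntermediateField.adjoin kk {DDk} →+* Φ.A)).roots := by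
  have hinj : Function.Injective
      (IDX_ps hME Φ B hB AlgEquiv.refl : IntermediateField.adjoin kk {DDk} →+* Φ.A) :=
    RingHom.injective _
  rw [mem_roots ((Polynomial.map_ne_zero_iff hinj).2 hP), IsRoot.def, eval_map]
  have hB0 : B ≠ 0 := by rintro rfl; exact absurd hB (by decide)
  have hv0 : v.1 ≠ 0 := by
    intro h0
    rw [h0] at hv
    exact absurd hv (by decide)
  have hmem : sig v.1 v.2 DDk ∈ MM := hME _ _ _ hv DDk_mem
  have hval : IDX_th hME Φ B hB g ⟨sig v.1 v.2 DDk, hmem⟩ = g (Φ.D (B * v.1, v.2)) := by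
    rw [IDX_th_apply]
    show g (Φ.cl (sig B 1 (sig v.1 v.2 DDk))) = g (Φ.cl (sig (B * v.1) v.2 DDk))
    rw [sig_sig hB0 hv0, one_pow, mul_one]
  have h0 : Polynomial.eval₂ ((IntermediateField.inclusion IDX_le :
      IntermediateField.adjoin kk {DDk} →ₐ[kk] MM) : IntermediateField.adjoin kk {DDk} →+* MM)
      (⟨sig v.1 v.2 DDk, hmem⟩ : MM) P = 0 := by
    apply Subtype.val_injective
    have h1 := Polynomial.hom_eval₂ P ((IntermediateField.inclusion IDX_le :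
      IntermediateField.adjoin kk {DDk} →ₐ[kk] MM) : IntermediateField.adjoin kk {DDk} →+* MM)
      (MM.val : MM →+* LL) (⟨sig v.1 v.2 DDk, hmem⟩ : MM)
    have h2 : (MM.val : MM →+* LL) (Polynomial.eval₂ ((IntermediateField.inclusion IDX_le :
      IntermediateField.adjoin kk {DDk} →ₐ[kk] MM) : IntermediateField.adjoin kk {DDk} →+* MM)
      (⟨sig v.1 v.2 DDk, hmem⟩ : MM) P) = 0 := by
      rw [h1]
      exact h
    exact h2
  have h3 := Polynomial.hom_eval₂ P ((IntermediateField.inclusion IDX_le :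
      IntermediateField.adjoin kk {DDk} →ₐ[kk] MM) : IntermediateField.adjoin kk {DDk} →+* MM)
      (IDX_th hME Φ B hB g : MM →+* Φ.A) (⟨sig v.1 v.2 DDk, hmem⟩ : MM)
  rw [h0, map_zero] at h3
  have h4 : ((IDX_ps hME Φ B hB AlgEquiv.refl : _ →ₐ[kk] Φ.A) :
      IntermediateField.adjoin kk {DDk} →+* Φ.A) =
      (IDX_th hME Φ B hB g : MM →+* Φ.A).comp ((IntermediateField.inclusion IDX_le :
      IntermediateField.adjoin kk {DDk} →ₐ[kk] MM) : IntermediateField.adjoin kk {DDk} →+* MM) := by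
    rw [← IDX_indep hME Φ B hB g hg]
    rfl
  rw [h4]
  have h5 : (IDX_th hME Φ B hB g : MM →+* Φ.A) ⟨sig v.1 v.2 DDk, hmem⟩ = g (Φ.D (B * v.1, v.2)) :=
    hval
  rw [h5] at h3
  exact h3.symm

theorem IDX_fin (N : ℕ) (hN : N ≠ 0) : {v : Vx | v.1 ∣ 3 * N ∧ v.2 ^ N = 1}.Finite := by
  have hNZ : NeZero N := ⟨hN⟩
  have h1 : {ζ : kkˣ | ζ ^ N = 1}.Finite := by
    have hf : Finite (rootsOfUnity N kk) := inferInstance
    have h1 : ((rootsOfUnity N kk : Subgroup kkˣ) : Set kkˣ).Finite := Set.finite_coe_iff.1 hf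
    refine h1.subset fun ζ hζ => ?_
    exact (mem_rootsOfUnity N ζ).2 hζ
  refine ((Set.finite_mem_finset (3 * N).divisors).prod h1).subset ?_
  rintro v ⟨hv1, hv2⟩
  exact ⟨Nat.mem_divisors.2 ⟨hv1, by omega⟩, hv2⟩

/-- **IDX**. -/
theorem IDX (hME : ME_stmt) : IDX_stmt := by
  classical
  intro N hN
  have hN0 : N ≠ 0 := by rintro rfl; exact absurd hN (by decide)
  have hodd : ∀ v : Vx, v.1 ∣ 3 * N → Odd v.1 := by
    intro v hv
    exact Odd.of_dvd_nat (Nat.odd_mul.2 ⟨by decide, hN⟩) hv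
  have hex : ∀ v : Vx, ∃ P : Polynomial (IntermediateField.adjoin kk {DDk}),
      (v.1 ∣ 3 * N ∧ v.2 ^ N = 1) → P ≠ 0 ∧ aeval (sig v.1 v.2 DDk) P = 0 := by
    intro v
    by_cases hv : v.1 ∣ 3 * N ∧ v.2 ^ N = 1
    · have h1 : sig v.1 v.2 DDk ∈ MM := hME _ _ _ (hodd v hv.1) DDk_mem
      rw [mem_MM] at h1
      obtain ⟨P, hP, hP0⟩ := h1
      exact ⟨P, fun _ => ⟨hP, hP0⟩⟩
    · exact ⟨0, fun h => absurd h hv⟩
  choose P hP using hex
  have hfin := IDX_fin N hN0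
  refine ⟨∏ v ∈ hfin.toFinset, (P v).natDegree, fun Φ B hB => ?_⟩
  set Z : Vx → Finset Φ.A := fun v =>
    ((P v).map (IDX_ps hME Φ B hB AlgEquiv.refl : IntermediateField.adjoin kk {DDk} →+* Φ.A)).roots.toFinset with hZ
  refine ⟨(hfin.toFinset.pi Z).image (fun f v => if h : v ∈ hfin.toFinset then f v h else 0),
    ?_, fun g hg => ?_⟩
  · refine Finset.card_image_le.trans ?_
    rw [Finset.card_pi]
    refine Finset.prod_le_prod' fun v _ => ?_
    refine (Multiset.toFinset_card_le _).trans ((Polynomial.card_roots' _).trans ?_)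
    exact Polynomial.natDegree_map_le
  · rw [Finset.mem_image]
    refine ⟨fun v _ => g (Φ.D (B * v.1, v.2)), ?_, ?_⟩
    · rw [Finset.mem_pi]
      intro v hv
      have hv' : v.1 ∣ 3 * N ∧ v.2 ^ N = 1 := (Set.Finite.mem_toFinset hfin).1 hv
      rw [hZ, Multiset.mem_toFinset]
      exact IDX_root hME Φ B hB g hg v (hodd v hv'.1) (P v) (hP v hv').1 (hP v hv').2
    · funext v
      unfold tup
      by_cases hv : v.1 ∣ 3 * N ∧ v.2 ^ N = 1
      · rw [dif_pos ((Set.Finite.mem_toFinset hfin).2 hv), if_pos hv]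
      · rw [dif_neg (fun h => hv ((Set.Finite.mem_toFinset hfin).1 h)), if_neg hv]

end Pool.Agent.QP
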