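import Pool.Agent.helper67.QP.SpecE
import Pool.Agent.helper7.EP.AllH
import Pool.Agent.helper21.EP.NEG

/-!
# Project qp (MP_ebc808_nt), row EJA
-/

set_option autoImplicit false

open Finset

noncomputable section

namespace Pool.Agent.QP

open Pool.Agent.EP (KK ww WW JG ac)

theorem EJA_coeff {ι : Type*} (s : Finset ι) (g : ι → KK) (M : ℤ) :
    (∑ i ∈ s, g i).coeff M = ∑ i ∈ s, (g i).coeff M := by
  classical
  induction s using Finset.induction_on with
  | empty => simp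
  | insert a s ha ih => rw [Finset.sum_insert ha, Finset.sum_insert ha, HahnSeries.coeff_add, ih]

theorem EJA_rep (f : KK) (hf : f ∈ WW) : ∃ I : Finset ℕ, f = ∑ i ∈ I, ww ^ i := by
  obtain ⟨c, _, rfl⟩ := Pool.Agent.EP.NEG_rep f hf
  refine ⟨c.support, ?_⟩
  rw [Finsupp.sum]
  refine Finset.sum_congr rfl fun i hi => ?_
  have h : c i = 1 := by
    have h0 := Finsupp.mem_support_iff.1 hi
    generalize c i = x at h0 ⊢
    revert x
    decide
  rw [h, one_smul]

theorem EJA_z (x y : ZMod 24) : x * y = 23 → y * y = 1 := by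
  revert x y
  decide

theorem EJA_jgs (D : ℕ) (M : ℤ) (hD : D % 24 = 23) (h : JG ac D M ≠ 0) : M % 24 = 1 := by
  unfold JG at h
  obtain ⟨d, hd, hne⟩ := Finset.exists_ne_zero_of_sum_ne_zero h
  rw [Finset.mem_filter, Nat.mem_divisors] at hd
  obtain ⟨⟨hdD, hD0⟩, hdM⟩ := hd
  have hac : ((D : ℤ) * M / (d : ℤ) ^ 2) % 24 = 23 := by
    by_contra hc
    apply hne
    unfold ac
    rw [if_neg (fun hh => hc hh.1)]
  obtain ⟨D', rfl⟩ := hdD
  obtain ⟨M', rfl⟩ := hdM
  have hd0 : (d : ℤ) ≠ 0 := by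
    intro h0
    apply hD0
    have : d = 0 := by exact_mod_cast h0
    rw [this, zero_mul]
  have e1 : ((d * D' : ℕ) : ℤ) * (d * M') / (d : ℤ) ^ 2 = D' * M' := by
    push_cast
    rw [show (d : ℤ) * D' * (d * M') = (D' * M') * (d : ℤ) ^ 2 by ring,
      Int.mul_ediv_cancel _ (pow_ne_zero 2 hd0)]
  rw [e1] at hac
  have h1 : ((D' : ZMod 24)) * (M' : ZMod 24) = 23 := by
    have h24 : ((24 : ℕ) : ℤ) = 24 := rfl
    have := (ZMod.intCast_eq_intCast_iff' ((D' : ℤ) * M') 23 24).2 (by rw [h24, hac]; rfl)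
    push_cast at this
    exact this
  have h2 : ((d : ZMod 24)) * (D' : ZMod 24) = 23 := by
    have := (ZMod.natCast_eq_natCast_iff' (d * D') 23 24).2 (by rw [hD])
    push_cast at this
    exact this
  have h23 : (23 : ZMod 24) = -1 := by decide
  have h3 : (d : ZMod 24) = (M' : ZMod 24) := by
    have : (d : ZMod 24) * ((D' : ZMod 24) * (M' : ZMod 24)) =
        ((d : ZMod 24) * (D' : ZMod 24)) * (M' : ZMod 24) := by ring
    rw [h1, h2, h23] at this
    simpa using this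
  have h4 : (M' : ZMod 24) * (M' : ZMod 24) = 1 := EJA_z _ _ h1
  have h5 : (((d : ℤ) * M' : ℤ) : ZMod 24) = ((1 : ℤ) : ZMod 24) := by
    push_cast
    rw [h3, h4]
  have h6 := (ZMod.intCast_eq_intCast_iff' ((d : ℤ) * M') 1 24).1 h5
  simpa using h6

theorem EJA_cop (D : ℕ) (hD : D % 24 = 23) : Nat.Coprime D 6 := by
  have h2 : Nat.Coprime D 2 := ((Nat.Prime.coprime_iff_not_dvd Nat.prime_two).2 (by omega)).symm
  have h3 : Nat.Coprime D 3 := ((Nat.Prime.coprime_iff_not_dvd Nat.prime_three).2 (by omega)).symm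
  exact Nat.Coprime.mul_right h2 h3

theorem EJA_f (S : Finset ℕ) (hS : ∀ D ∈ S, D % 24 = 23) :
    ∃ f ∈ WW, ∀ M : ℤ, f.coeff M = ∑ D ∈ S, JG ac D M := by
  classical
  have h : ∀ D : ℕ, ∃ f ∈ WW, D ∈ S → ∀ M : ℤ, f.coeff M = JG ac D M := by
    intro D
    by_cases hD : D ∈ S
    · have h1 := hS D hD
      obtain ⟨f, hf, hc⟩ := Pool.Agent.EP.all_JW D (by omega) (EJA_cop D h1)
      exact ⟨f, hf, fun _ => hc⟩
    · exact ⟨0, WW.zero_mem, fun h => absurd h hD⟩
  choose g hg hgc using h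
  refine ⟨∑ D ∈ S, g D, WW.sum_mem (fun D _ => hg D), fun M => ?_⟩
  rw [EJA_coeff]
  exact Finset.sum_congr rfl fun D hD => hgc D hD M

theorem EJA_23 (f : KK) (hf : f ∈ WW) (hM : ∀ M : ℤ, f.coeff M ≠ 0 → M % 24 = 1) :
    ∃ J : Finset ℕ, (∀ j ∈ J, j % 24 = 23) ∧ f = ∑ j ∈ J, ww ^ j := by
  classical
  obtain ⟨I, rfl⟩ := EJA_rep f hf
  refine ⟨I.filter (fun j => j % 24 = 23), fun j hj => (Finset.mem_filter.1 hj).2, ?_⟩
  apply HahnSeries.ext
  funext M
  by_cases h : M % 24 = 1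
  · rw [EJA_coeff, EJA_coeff, Finset.sum_filter]
    refine Finset.sum_congr rfl fun j _ => ?_
    split_ifs with h1
    · rfl
    · rw [Pool.Agent.EP.WM.1 j M, if_neg]
      rintro ⟨h2, _⟩
      omega
  · have h0 : (∑ i ∈ I, ww ^ i).coeff M = 0 := by
      by_contra hc
      exact h (hM M hc)
    rw [h0, EJA_coeff]
    symm
    apply Finset.sum_eq_zero
    intro j hj
    have h1 := (Finset.mem_filter.1 hj).2
    rw [Pool.Agent.EP.WM.1 j M, if_neg]
    rintro ⟨h2, _⟩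
    omega

theorem EJA_inj (a : ℕ) : ∀ (b k l : ℕ), Odd k → Odd l → 2 ^ a * k = 2 ^ b * l → a = b ∧ k = l := by
  induction a with
  | zero =>
    intro b k l hk hl h
    cases b with
    | zero => simpa using h
    | succ b =>
      exfalso
      rw [pow_zero, one_mul] at h
      apply Nat.not_even_iff_odd.2 hk
      rw [h, pow_succ]
      exact ⟨2 ^ b * l, by ring⟩
  | succ a ih =>
    intro b k l hk hl h
    cases b with
    | zero =>
      exfalso
      rw [pow_zero, one_mul] at h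
      apply Nat.not_even_iff_odd.2 hl
      rw [← h, pow_succ]
      exact ⟨2 ^ a * k, by ring⟩
    | succ b =>
      obtain ⟨h1, h2⟩ := ih b k l hk hl (by
        rw [pow_succ, pow_succ] at h
        nlinarith [h])
      exact ⟨by omega, h2⟩

theorem EJA_fka (J : Finset ℕ) (hJ : ∀ j ∈ J, j % 24 = 23) : ∃ (A : ℕ) (K : ℕ → Finset ℕ),
    (∀ a < A, ∀ k ∈ K a, Odd k) ∧ (J.Nonempty → ∃ a < A, (K a).Nonempty) ∧
      fK A K = ∑ j ∈ J, ww ^ j := by
  classical
  have hle : ∀ j ∈ J, j + 2 ≤ J.sup id + 2 := fun j hj => by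
    have := Finset.le_sup (f := id) hj
    simp only [id_eq] at this
    omega
  generalize J.sup id + 2 = B at hle
  have key : ∀ j ∈ J, ∃ a k : ℕ, a < B ∧ k < B ∧ Odd k ∧ 24 * (2 ^ a * k) - 1 = j := by
    intro j hj
    have h23 := hJ j hj
    obtain ⟨a, k, hk, he⟩ := Nat.exists_eq_two_pow_mul_odd (n := (j + 1) / 24) (by omega)
    have h1 : 24 * ((j + 1) / 24) = j + 1 := by omega
    have h2 : 24 * (2 ^ a * k) = j + 1 := by rw [← he]; exact h1
    have h3 : a < 2 ^ a := Nat.lt_two_pow_self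
    have hk1 : 0 < k := hk.pos
    have h4 : 2 ^ a ≤ 2 ^ a * k := Nat.le_mul_of_pos_right _ hk1
    have h5 : k ≤ 2 ^ a * k := Nat.le_mul_of_pos_left _ (by positivity)
    have h6 := hle j hj
    refine ⟨a, k, by omega, by omega, hk, by omega⟩
  refine ⟨B, fun a => (range B).filter (fun k => Odd k ∧ 24 * (2 ^ a * k) - 1 ∈ J), ?_, ?_, ?_⟩
  · intro a _ k hk
    exact (Finset.mem_filter.1 hk).2.1
  · rintro ⟨j, hj⟩
    obtain ⟨a, k, ha, hk, hko, he⟩ := key j hj
    exact ⟨a, ha, k, Finset.mem_filter.2 ⟨Finset.mem_range.2 hk, hko, by rw [he]; exact hj⟩⟩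
  · unfold fK
    rw [Finset.sum_sigma']
    refine Finset.sum_bij (fun x _ => 24 * (2 ^ x.1 * x.2) - 1) ?_ ?_ ?_ ?_
    · intro x hx
      exact (Finset.mem_filter.1 (Finset.mem_sigma.1 hx).2).2.2
    · intro x hx y hy hxy
      have h1 := (Finset.mem_filter.1 (Finset.mem_sigma.1 hx).2).2
      have h2 := (Finset.mem_filter.1 (Finset.mem_sigma.1 hy).2).2
      have p1 : 0 < 2 ^ x.1 * x.2 := Nat.mul_pos (by positivity) h1.1.pos
      have p2 : 0 < 2 ^ y.1 * y.2 := Nat.mul_pos (by positivity) h2.1.pos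
      have hxy' : 24 * (2 ^ x.1 * x.2) - 1 = 24 * (2 ^ y.1 * y.2) - 1 := hxy
      have h3 : 2 ^ x.1 * x.2 = 2 ^ y.1 * y.2 := by omega
      obtain ⟨h4, h5⟩ := EJA_inj _ _ _ _ h1.1 h2.1 h3
      exact Sigma.ext h4 (heq_of_eq h5)
    · intro j hj
      obtain ⟨a, k, ha, hk, hko, he⟩ := key j hj
      refine ⟨⟨a, k⟩, Finset.mem_sigma.2 ⟨Finset.mem_range.2 ha,
        Finset.mem_filter.2 ⟨Finset.mem_range.2 hk, hko, ?_⟩⟩, he⟩
      rw [he]
      exact hj
    · intro x _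
      rfl

/-- **EJA**. -/
theorem EJA : EJA_stmt := by
  classical
  intro S hS
  obtain ⟨f, hf, hfc⟩ := EJA_f S hS
  have hsupp : ∀ M : ℤ, f.coeff M ≠ 0 → M % 24 = 1 := by
    intro M hM
    rw [hfc M] at hM
    obtain ⟨D, hD, hne⟩ := Finset.exists_ne_zero_of_sum_ne_zero hM
    exact EJA_jgs D M (hS D hD) hne
  obtain ⟨J, hJ, hfJ⟩ := EJA_23 f hf hsupp
  obtain ⟨A, K, hK, hne, hfK⟩ := EJA_fka J hJ
  refine ⟨A, K, hK, ?_, ?_⟩
  · rintro ⟨D₀, hD₀⟩
    apply hne
    by_contra hemp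
    rw [Finset.not_nonempty_iff_eq_empty] at hemp
    rw [hemp, Finset.sum_empty] at hfJ
    have h1 := hfc (-(D₀ : ℤ))
    rw [hfJ, HahnSeries.coeff_zero] at h1
    have h23 := hS D₀ hD₀
    have h2 : ∑ D ∈ S, JG ac D (-(D₀ : ℤ)) = 1 := by
      rw [Finset.sum_eq_single D₀]
      · rw [Pool.Agent.EP.JN D₀ (-(D₀ : ℤ)) (by omega) (by omega), if_pos rfl]
      · intro D hD hne'
        have h3 := hS D hD
        rw [Pool.Agent.EP.JN D (-(D₀ : ℤ)) (by omega) (by omega), if_neg]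
        intro h4
        apply hne'
        omega
      · intro h
        exact absurd hD₀ h
    rw [h2] at h1
    exact zero_ne_one h1
  · intro M
    rw [hfK, ← hfJ]
    exact hfc M

end Pool.Agent.QP
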