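import Pool.Agent.helper19.QP.SpecS
import Pool.Agent.helper19.QP.SpecV
import Pool.Agent.helper30.QP.SpecC
import Pool.Agent.helper67.QP.Stm
import Pool.Agent.helper7.EP.SpecA

/-!
# Project qp (MP_ebc808_nt), Theorem Q+: block E (the end of the proof)

From the parities `p((D m^2+1)/24)` to the Shimura lift `psi f` of `f = ∑_{D ∈ S} J_D`, where `J_D` is the element of `WW` with the coefficients
`JG ac D M` (`EP.JW`, proved), and the contradiction between Lemma C (`LEMC`, block C) and the supersingular place (`PSN`, block V).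
`JW_stmt`, `JN_stmt`, `WM_stmt` are statements of `Pool/Agent/helper7/EP/SpecH.lean`, all proved (Pool/Agent/helper7/EP/AllH.lean); they may be imported or
used as hypotheses.

RULES. Row `XX`: file `Pool/Agent/<seat>/QP/XX.lean`, import this file (and the landed files named in the docstring), `namespace Pool.Agent.QP`,
auxiliary lemmas prefixed `XX_`, other rows only as hypotheses `(hYY : YY_stmt)`.
-/

set_option autoImplicit false

open Finset

noncomputable section

namespace Pool.Agent.QP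

open Pool.Agent.helper7.IG (kk LL sig DDk MM im2 ps Vx Nb Frame incl)
open Pool.Agent.EP (KK ww vvx WW JG ac pp IsT JW_stmt JN_stmt WM_stmt)

/-! ### The form `f` -/

/-- **WSJ** (short, 30 lines). The elements of `WW` as finite sums of powers. Proof. `WW` is the span of the `ww ^ i`, `i ≥ 1`: `Submodule.span_induction`. `0`: `J = ∅`. Generators: `J = {i}`. Sums: the symmetric difference (`symmDiff`) of the two sets; `∑_{J ∆ J'} = ∑_J + ∑_J'`
as `ww^j + ww^j = 0` (characteristic 2; `∑_J = ∑_{J \ J'} + ∑_{J ∩ J'}`). Scalars are `0` or `1`. (Or: `Finsupp.mem_span_image_iff_linearCombination` and the support of the linear combination.) -/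
def WSJ_stmt : Prop := ∀ f ∈ WW, ∃ J : Finset ℕ, (∀ j ∈ J, 1 ≤ j) ∧ f = ∑ j ∈ J, ww ^ j

/-- **J23** (short, 40 lines; uses WSJ and `EP.WM_stmt`). Exponents `1 mod 24`. Proof. `J₀` from WSJ, `J = {j ∈ J₀ | j % 24 = 23}`, `J'` the rest. `ww^j` has nonzero coefficients only at `M = -j mod 24` (WM, first part). Compare the coefficients at `M`. If `M % 24 = 1` then every `j ∈ J'` has
`(ww^j).coeff M = 0`, so `f.coeff M = ∑_{j ∈ J} (ww^j).coeff M`. If `M % 24 ≠ 1` then `f.coeff M = 0` by hypothesis and `(ww^j).coeff M = 0` for all `j ∈ J`. -/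
def J23_stmt : Prop := ∀ f ∈ WW, (∀ M : ℤ, f.coeff M ≠ 0 → M % 24 = 1) →
  ∃ J : Finset ℕ, (∀ j ∈ J, j % 24 = 23) ∧ f = ∑ j ∈ J, ww ^ j

/-- **FKA** (short-medium, 60 lines; only Mathlib). Sorting the exponents `j = 24 2^a k - 1`, `k` odd, by `a`.
Proof. `B = J.sup id + 2`, `A = B`, `K a = {k ∈ range B | Odd k ∧ 24 * (2^a * k) - 1 ∈ J}`. `fK A K = ∑_{a < A} ∑_{k ∈ K a} ww^(24 (2^a k) - 1)`; the map `(a, k) ↦ 24 (2^a k) - 1` is a bijection of the pairs `a < A`, `k ∈ K a` onto `J` (`Finset.sum_sigma'`, `Finset.sum_bij`):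
it is injective because `2^a k` (`k` odd) determines `a` and `k`, surjective because `j + 1 = 24 t`, `t ≥ 1`, `t = 2^a k` with `k` odd (`Nat.exists_eq_two_pow_mul_odd`), `a < 2^a ≤ t ≤ j`, `k ≤ t`. If `J` is not empty then some `K a` is not. -/
def FKA_stmt : Prop := ∀ J : Finset ℕ, (∀ j ∈ J, j % 24 = 23) → ∃ (A : ℕ) (K : ℕ → Finset ℕ),
  (∀ a < A, ∀ k ∈ K a, Odd k) ∧ (J.Nonempty → ∃ a < A, (K a).Nonempty) ∧
    fK A K = ∑ j ∈ J, ww ^ j

/-- **JGS** (short, 40 lines; only the definitions). The support of `J_D`. Proof. If the sum `JG ac D M` is not zero then some term `ac (D M/d^2)`, `d ∣ D`, `d ∣ M`, is not zero, so `D M/d^2 = 23 mod 24`. `D = d d'`, `M = d M'`: `D M/d^2 = d' M'`, and `D M = d^2 (d' M')`.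
`d` is prime to 6 (it divides `D`, `D % 24 = 23`), so `d^2 % 24 = 1` and `D M = 23 mod 24`, i.e. `-M = -1 mod 24`. -/
def JGS_stmt : Prop := ∀ (D : ℕ) (M : ℤ), D % 24 = 23 → JG ac D M ≠ 0 → M % 24 = 1

/-- **FRM** (short-medium, 60 lines; uses J23, FKA, JGS, `EP.JW_stmt`, `EP.JN_stmt`). The form `f = ∑_{D ∈ S} J_D`.
Proof. For `D ∈ S` JW gives `f_D ∈ WW` with `f_D.coeff M = JG ac D M` (`D > 0`, `D` prime to 6 since `D % 24 = 23`). `f = ∑_{D ∈ S} f_D ∈ WW` has the coefficients `∑_D JG ac D M`, they vanish unless `M % 24 = 1` (JGS). J23 gives `J`, FKA gives `A`, `K`. `J` is not empty: otherwise `f = 0`, but for `D₀ ∈ S` the coefficient of `f`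
at `-D₀ < 0` is `∑_{D ∈ S} [-D₀ = -D] = 1` (JN). -/
def FRM_stmt : Prop := ∀ S : Finset ℕ, S.Nonempty → (∀ D ∈ S, D % 24 = 23) →
  ∃ (A : ℕ) (K : ℕ → Finset ℕ), (∀ a < A, ∀ k ∈ K a, Odd k) ∧ (∃ a < A, (K a).Nonempty) ∧
    ∀ M : ℤ, (fK A K).coeff M = ∑ D ∈ S, JG ac D M

/-- **CFM** (short, 40 lines; only the definitions). The coefficient of `J_D` at `m^2`. Proof. A common divisor `d` of `D` and `m^2` is `1` (`m` is prime to `D`), so the sum `JG ac D (m^2)` has the single term `d = 1` (`1 ∣ D`, `D ≠ 0`), `ac (D m^2)`. `m` is prime to 6, so `m^2 % 24 = 1`, `(D m^2) % 24 = 23`, `D m^2 ≥ -1`, and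
`ac (D m^2) = pp (((D m^2 + 1)/24).toNat)`, the integer division is that of natural numbers. -/
def CFM_stmt : Prop := ∀ D m : ℕ, D % 24 = 23 → m.Coprime 6 → m.Coprime D →
  JG ac D ((m : ℤ) ^ 2) = (Fintype.card (Nat.Partition ((D * m ^ 2 + 1) / 24)) : ZMod 2)

/-- **RDC** (short, 40 lines; only Mathlib). The radical without the primes 2 and 3. Proof. `R = ∏ p ∈ T, p`, `T = {p ∈ (N * ∏ D ∈ S, D).primeFactors | p ≠ 2 ∧ p ≠ 3}`: squarefree as a product of different primes (`Finset.squarefree_prod_of_pairwise_isCoprime`, or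
`Nat.squarefree_of_factorization_le_one`, or `UniqueFactorizationMonoid`, or take `R` = the radical of the part prime to 6), prime to 6 (`Nat.Coprime.prod_left`). If `m` is prime to 6 and to `R` and a prime `p` divides `m` and `N D ∏..`, then `p ≠ 2, 3`, so `p ∈ T`, `p ∣ R`: contradiction
(`Nat.Coprime` via `Nat.coprime_of_dvd` / `Nat.Prime.not_coprime_iff_dvd`). -/
def RDC_stmt : Prop := ∀ (S : Finset ℕ) (N : ℕ), (∀ D ∈ S, D ≠ 0) → N ≠ 0 → ∃ R : ℕ,
  Squarefree R ∧ R.Coprime 6 ∧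
  ∀ m : ℕ, m.Coprime 6 → m.Coprime R → m.Coprime N ∧ ∀ D ∈ S, m.Coprime D

/-- **PER** (medium, 100 lines; only the definitions; `PN_coeff`, `IG.ps_coeff`). Eventually constant parities give a rational function.
Proof. `G = psi f + [e = 1] UU` has the coefficient `0` at `n ≤ 0` (`Nat.divisors 0 = ∅`) and `∑_{m ∣ n, (m,6) = 1} (f.coeff (m^2) + e)` (in `ZMod 2`, mapped to `kk`) at `n ≥ 1` (`UU` counts the divisors prime to 6). Let `G' = PN R G`: its coefficient at `n ≥ 1` is `0` if `n` is not prime to `R`; if it is, all divisors `m` of `n` are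
prime to `R`, so the terms with `m > m₀` vanish (`e + e = 0`), and the coefficient is `∑_{m ∈ range (m₀+1), (m,6) = 1, m ∣ n} (f.coeff (m^2) + e)`. Let `L = R * m₀!` (`L ≥ 1`, `m ∣ L` for `1 ≤ m ≤ m₀`; `0 ∣ n` is false for `n ≥ 1`). The coefficient `a(n)` of `G'` satisfies `a(n + L) = a(n)` for `n ≥ 1`
(`gcd(n + L, R) = gcd(n, R)`; `m ∣ n + L` iff `m ∣ n`). So with `P = 1 + X^L` the series `incl P * G'` has at `n` the coefficient `a(n) + a(n - L)`, which is `0` for `n > L` and for `n ≤ 0`, and `a(n)` for `1 ≤ n ≤ L`: it is `incl Q`, `Q = ∑_{n ∈ Icc 1 L} C (a n) X^n`. (`incl X` is `single 1 1`,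
`(single 1 1)^L * G'` is a shift; `incl Q` has the coefficient `Q.coeff n.toNat` at `n ≥ 0`.) `P ≠ 0`: coefficient `1` at `L ≥ 1`. -/
def PER_stmt : Prop := ∀ (f : KK) (R m₀ : ℕ) (e : ZMod 2), R ≠ 0 →
  (∀ m : ℕ, m₀ < m → m.Coprime 6 → m.Coprime R → f.coeff ((m : ℤ) ^ 2) = e) →
  ∃ P Q : Polynomial kk, P ≠ 0 ∧ incl P * PN R (psi f + (if e = 1 then UU else 0)) = incl Q

/-- **CON** (short-medium, 70 lines; uses URU UHM UHD RLX SEL PSN LEMC INVP UR3 INA). The contradiction.
Proof. RLX gives for `a < A` a set `NN a` with `Rel (NN a) (K a)` (choose; `∅` for `a ≥ A`). `N = ∏ a ∈ range A, ∏ n ∈ NN a, n` is odd, and `n ∣ N` for all `n ∈ NN a`, `a < A`. SEL: `sig N 1 (psi f) = c + XI N A NN`, `f = fK A K`. INVP (with the first part of URU; `Odd n` by `Rel`): `Inv3 (psi f)`. UR3 with UHM, UHD: `Inv3 UU`. So `G = psi f + [e = 1] UU`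
satisfies `Inv3` (INA; for `e ≠ 1` it is `psi f + 0`). If there were `P ≠ 0`, `Q` with `incl P * PN R G = incl Q` then `G` would be a constant `c'` by LEMC; apply `sig N 1` (an algebra homomorphism): `c + XI N A NN + [e = 1] sig N 1 UU = c'`, so `XI N A NN` (or `XI N A NN + sig N 1 UU`) is the constant `c' + c` (characteristic 2): contradiction to PSN. -/
def CON_stmt : Prop := ∀ (A : ℕ) (K : ℕ → Finset ℕ) (R : ℕ) (e : ZMod 2),
  (∀ a < A, ∀ k ∈ K a, Odd k) → (∃ a < A, (K a).Nonempty) → Squarefree R → R.Coprime 6 →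
  ¬ ∃ P Q : Polynomial kk, P ≠ 0 ∧
    incl P * PN R (psi (fK A K) + (if e = 1 then UU else 0)) = incl Q

/-- **QPA** (short, 50 lines; uses FRM CFM RDC PER CON; the conclusion is `QPLUS_stmt` of `Pool/Agent/helper67/QP/Stm.lean`). The end.
Proof. Suppose that the set of the `m` prime to `6 N` with sum `e` is finite, `m₀` an upper bound. `A, K` from FRM, `R` from RDC. For `m > m₀` prime to 6 and to `R`: `m` is prime to `6 N` and to all `D ∈ S`, the sum `b(m) = ∑_D p((D m^2+1)/24)` is not `e`, so it is `e + 1` (`ZMod 2`: decide), and `(fK A K).coeff (m^2) = ∑_D JG ac D (m^2) = b(m)` by FRM and CFM.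
PER with `e + 1` gives `P, Q`; this contradicts CON. -/
def QPA_stmt : Prop := QPLUS_stmt

end Pool.Agent.QP
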